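import Pool.Agent.Helper58.NS.Def

/-!
# Smoothing of a pair of lines: statements of the parts (swarm NS)
-/

set_option autoImplicit false
set_option linter.unusedSectionVars false

open Polynomial Finset DirectSum

namespace Pool.Agent.Helper58.NS.Spec

open Pool.Agent.Helper766_CF Pool.Agent.Helper766_CG Pool.Agent.Helper766_CH
open Pool.Agent.Helper58.CS Pool.Agent.Helper58.OP Pool.Agent.Helper58.SH Pool.Agent.Helper58.BG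
open Pool.Agent.Helper58.LC Pool.Agent.Helper58.NS

variable {R : Type} [CommRing R] [Algebra ℂ R] {𝒜 : ℕ → Submodule ℂ R} [GradedAlgebra 𝒜]
  {br : R →ₗ[ℂ] R →ₗ[ℂ] R} {k : Type} [Field k] [Algebra ℂ k]

/-- S1a. Local structure of the ideal of relations at a point off the vertex. -/
theorem local_ci (C : Core 𝒜 br) {M : ℕ} (π : MvPolynomial (Fin M) ℂ →ₐ[ℂ] R)
    (hπ : Function.Surjective π) {p : R →ₐ[ℂ] ℂ} (hp : ¬ IsVertex 𝒜 p) :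
    ∃ (c : ℕ) (g : Fin c → MvPolynomial (Fin M) ℂ) (S : Fin c → Fin M)
      (u : MvPolynomial (Fin M) ℂ), (∀ j, π (g j) = 0) ∧
      p (π (Matrix.of fun i j => MvPolynomial.pderiv (S i) (g j)).det) ≠ 0 ∧ p (π u) ≠ 0 ∧
      ∀ h, π h = 0 → u * h ∈ Ideal.span (Set.range g) := sorry

/-- S1b. The conormal sequence splits at a point off the vertex. -/
theorem local_split (C : Core 𝒜 br) {M : ℕ} (π : MvPolynomial (Fin M) ℂ →ₐ[ℂ] R)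
    (hπ : Function.Surjective π) {p : R →ₐ[ℂ] ℂ} (hp : ¬ IsVertex 𝒜 p) :
    ∃ (u : MvPolynomial (Fin M) ℂ) (h : Fin M → MvPolynomial (Fin M) ℂ), p (π u) ≠ 0 ∧
      (∀ i, π (h i) = 0) ∧ ∀ g, π g = 0 →
        u * g - ∑ i, MvPolynomial.pderiv i g * h i ∈ (RingHom.ker π) ^ 2 := sorry

/-- S2. `R` is smooth off the vertex. -/
theorem lift (C : Core 𝒜 br) : Lift 𝒜 := sorry

/-- G0. The general member of a family of free lines is free. -/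
theorem gg_of_sub {f : R →ₐ[ℂ] k[X]} (hf : IsCurve 𝒜 k 1 f)
    (h : ∀ lam, Pool.Agent.Helper4.LE.SubAt f lam) : GG 𝒜 f := sorry

/-- G1. Splitting of derivations along a free line. -/
theorem split [IsAlgClosed k] (hfg : Algebra.FiniteType ℂ R) {f : R →ₐ[ℂ] k[X]} (hgg : GG 𝒜 f)
    (δ : R →ₗ[ℂ] LaurentPolynomial k)
    (hδ : ∀ a b, δ (a * b) = toLaurent (f a) * δ b + toLaurent (f b) * δ a) :
    ∃ δp : R →ₗ[ℂ] k[X], IsDer f δp ∧ (∀ r, (δp r).coeff 0 = 0) ∧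
      ∀ d, ∀ a ∈ 𝒜 d, ∀ i : ℕ, d < i → (δ a).coeff (i : ℤ) = (δp a).coeff i := sorry

/-- T0a. The stage zero. -/
theorem stage_zero {f₁ f₂ : R →ₐ[ℂ] k[X]} (hf₁ : IsCurve 𝒜 k 1 f₁) (hf₂ : IsCurve 𝒜 k 1 f₂)
    (h : ∀ r, (f₁ r).coeff 0 = (f₂ r).coeff 0) : ∃ φ, Stage 𝒜 f₁ f₂ 0 φ := sorry

/-- T0b. A stage defines a homomorphism. -/
theorem stage_hom {f₁ f₂ : R →ₐ[ℂ] k[X]} {m : ℕ} {φ : R →ₗ[ℂ] k[X][X]}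
    (h : Stage 𝒜 f₁ f₂ m φ) : ∃ F : R →ₐ[ℂ] Tm k m, ∀ r, F r = mkT k m (φ r) := sorry

/-- T0c. It does not meet the vertex. -/
theorem stage_en {f₁ f₂ : R →ₐ[ℂ] k[X]} (hf₁ : EN 𝒜 f₁) (hf₂ : EN 𝒜 f₂) {m : ℕ}
    {φ : R →ₗ[ℂ] k[X][X]} (h : Stage 𝒜 f₁ f₂ m φ) (F : R →ₐ[ℂ] Tm k m)
    (hF : ∀ r, F r = mkT k m (φ r)) : EN 𝒜 F := sorry

/-- T1. A stage lifts, without the condition on the support. -/
theorem stage_lift (hlift : Lift 𝒜) {f₁ f₂ : R →ₐ[ℂ] k[X]} (hf₁ : EN 𝒜 f₁) (hf₂ : EN 𝒜 f₂)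
    {m : ℕ} {φ : R →ₗ[ℂ] k[X][X]} (h : Stage 𝒜 f₁ f₂ m φ) :
    ∃ φ' : R →ₗ[ℂ] k[X][X], (eps k ^ (m + 2) ∣ φ' 1 - 1) ∧
      (∀ a b, eps k ^ (m + 2) ∣ φ' (a * b) - φ' a * φ' b) ∧
      (∀ r i j, i ≤ m ∨ j ≤ m → cf (φ' r) i j = cf (φ r) i j) ∧
      ∀ r i j, m + 1 < i → m + 1 < j → cf (φ' r) i j = 0 := sorry

/-- T2. The correction on one side. -/
theorem side [IsAlgClosed k] (C : Core 𝒜 br) (hlift : Lift 𝒜) {f : R →ₐ[ℂ] k[X]}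
    (hf : IsCurve 𝒜 k 1 f) (hgg : GG 𝒜 f) {m : ℕ} {φ : R →ₗ[ℂ] k[X][X]}
    (h1 : eps k ^ (m + 2) ∣ φ 1 - 1) (h2 : ∀ a b, eps k ^ (m + 2) ∣ φ (a * b) - φ a * φ b)
    (h3 : ∀ r i, cf (φ r) i 0 = (f r).coeff i)
    (h4 : ∀ d, ∀ a ∈ 𝒜 d, ∀ i j, j ≤ m → d + j < i → cf (φ a) i j = 0) :
    ∃ δ : R →ₗ[ℂ] k[X], IsDer f δ ∧ (∀ r, (δ r).coeff 0 = 0) ∧
      ∀ d, ∀ a ∈ 𝒜 d, ∀ i, d < i → cf (φ a) (i + m + 1) (m + 1) + (δ a).coeff i = 0 := sorry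

/-- T3. The induction step. -/
theorem step [IsAlgClosed k] (C : Core 𝒜 br) (hlift : Lift 𝒜) {f₁ f₂ : R →ₐ[ℂ] k[X]}
    (hf₁ : IsCurve 𝒜 k 1 f₁) (hf₂ : IsCurve 𝒜 k 1 f₂) (hgg₁ : GG 𝒜 f₁) (hgg₂ : GG 𝒜 f₂)
    {m : ℕ} {φ : R →ₗ[ℂ] k[X][X]} (h : Stage 𝒜 f₁ f₂ m φ) :
    ∃ φ', Stage 𝒜 f₁ f₂ (m + 1) φ' ∧
      ∀ r i j, i ≤ m ∨ j ≤ m → cf (φ' r) i j = cf (φ r) i j := sorry

/-- LM. The limit of the stages. -/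
theorem limit {f₁ f₂ : R →ₐ[ℂ] k[X]} (φ : ℕ → R →ₗ[ℂ] k[X][X])
    (h : ∀ m, Stage 𝒜 f₁ f₂ m (φ m))
    (hst : ∀ m r i j, i ≤ m ∨ j ≤ m → cf (φ (m + 1) r) i j = cf (φ m r) i j) :
    ∃ Φ, Smo 𝒜 f₁ f₂ Φ := sorry

/-- C1. The family of conics. -/
theorem exists_g {f₁ f₂ : R →ₐ[ℂ] k[X]} {Φ : R →ₐ[ℂ] PowerSeries (PowerSeries k)}
    (h : Smo 𝒜 f₁ f₂ Φ) : ∃ g : R →ₐ[ℂ] (PowerSeries k)[X], ∀ d, ∀ a ∈ 𝒜 d, ∀ e j,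
      PowerSeries.coeff j ((g a).coeff e) = if d ≤ e + j then pc (Φ a) (e + j - d) j else 0 := sorry

/-- C2. It is a curve. -/
theorem curve_g [IsAlgClosed k] {f₁ f₂ : R →ₐ[ℂ] k[X]} (hf₁ : IsCurve 𝒜 k 1 f₁)
    (hf₂ : IsCurve 𝒜 k 1 f₂) {Φ : R →ₐ[ℂ] PowerSeries (PowerSeries k)} (h : Smo 𝒜 f₁ f₂ Φ)
    {g : R →ₐ[ℂ] (PowerSeries k)[X]} (hg : ∀ d, ∀ a ∈ 𝒜 d, ∀ e j,
      PowerSeries.coeff j ((g a).coeff e) = if d ≤ e + j then pc (Φ a) (e + j - d) j else 0)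
    (gK : R →ₐ[ℂ] (Kc k)[X])
    (hgK : ∀ r, gK r = (g r).map (algebraMap (PowerSeries k) (Kc k))) : IsCurve 𝒜 (Kc k) 2 gK :=
  sorry

/-- N1. The contact form on the logarithmic derivation. -/
theorem log_value (C : Core 𝒜 br) {f₁ f₂ : R →ₐ[ℂ] k[X]} (hf₁ : EN 𝒜 f₁)
    {Φ : R →ₐ[ℂ] PowerSeries (PowerSeries k)} (h : Smo 𝒜 f₁ f₂ Φ) {L₀ : List (R × k)}
    (hL₀ : ∀ r, (f₂ r).coeff 1 = (L₀.map fun q => q.2 * (f₁ (br q.1 r)).coeff 0).sum)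
    (hne : (L₀.map fun q => q.2 * (f₁ q.1).coeff 1).sum ≠ 0) :
    ∃ L : List (R × PowerSeries (PowerSeries k)),
      (∀ r i j, pc (hv br Φ L r) i j = ((i : k) - (j : k)) * pc (Φ r) i j) ∧ tv 𝒜 Φ L ≠ 0 := sorry

/-- N2. The conic is not tangent to the contact distribution. -/
theorem speed_ne [IsAlgClosed k] (C : Core 𝒜 br) {f₁ f₂ : R →ₐ[ℂ] k[X]}
    {Φ : R →ₐ[ℂ] PowerSeries (PowerSeries k)} (h : Smo 𝒜 f₁ f₂ Φ)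
    {g : R →ₐ[ℂ] (PowerSeries k)[X]} (hg : ∀ d, ∀ a ∈ 𝒜 d, ∀ e j,
      PowerSeries.coeff j ((g a).coeff e) = if d ≤ e + j then pc (Φ a) (e + j - d) j else 0)
    {L : List (R × PowerSeries (PowerSeries k))}
    (hL : ∀ r i j, pc (hv br Φ L r) i j = ((i : k) - (j : k)) * pc (Φ r) i j)
    (hne : tv 𝒜 Φ L ≠ 0) (c : Cu 𝒜 (Kc k) 2)
    (hc : ∀ r, c.g r = (g r).map (algebraMap (PowerSeries k) (Kc k))) {l : Kc k}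
    (hl : Speed br c l) : l ≠ 0 := sorry

/-- TR. The number of parameters does not drop. -/
theorem indep_g {f₁ f₂ : R →ₐ[ℂ] k[X]} {Φ : R →ₐ[ℂ] PowerSeries (PowerSeries k)}
    (h : Smo 𝒜 f₁ f₂ Φ) {g : R →ₐ[ℂ] (PowerSeries k)[X]} (hg : ∀ d, ∀ a ∈ 𝒜 d, ∀ e j,
      PowerSeries.coeff j ((g a).coeff e) = if d ≤ e + j then pc (Φ a) (e + j - d) j else 0)
    {N : ℕ} (x : Fin N → k) (hx : AlgebraicIndependent ℂ x)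
    (hxf : ∀ i, ∃ d, ∃ a ∈ 𝒜 d, ∃ j, x i = (f₁ a).coeff j ∨ x i = (f₂ a).coeff j) :
    ∃ y : Fin N → Kc k, AlgebraicIndependent ℂ y ∧
      ∀ i, ∃ a j, y i = algebraMap (PowerSeries k) (Kc k) ((g a).coeff j) := sorry

end Pool.Agent.Helper58.NS.Spec
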